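import Pool.Agent.ZPK.StmtsR2

/-!
Squad ZPK (MP_6e1a06_nt), row LWR: the relations at the lower end.
-/

set_option autoImplicit false

namespace Pool.Agent.ZPK.H59

open Pool.Agent.ZPT Pool.Agent.ZP3

noncomputable section

theorem norm_one_add {K : Type} [NormedField K] [IsUltrametricDist K] {z : K} (hz : ‖z‖ < 1) :
    ‖1 + z‖ = 1 := by
  rw [IsUltrametricDist.norm_add_eq_max_of_norm_ne_norm (by rw [norm_one]; exact hz.ne'), norm_one]
  exact max_eq_left hz.le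

theorem norm_nat_eq {p : ℕ} (hp : p.Prime) {K : Type} [NormedField K] [CharZero K] (h : Ext p K)
    {n : ℕ} (h1 : 1 ≤ n) (h2 : n < p) : ‖(n : K)‖ = 1 := by
  haveI : Fact p.Prime := ⟨hp⟩
  have h3 := h (n : ℚ)
  rw [Rat.cast_natCast] at h3
  rw [h3]
  have h4 : padicNorm p (n : ℚ) = 1 := by
    rw [padicNorm.nat_eq_one_iff]
    exact fun h => absurd (Nat.le_of_dvd (by omega) h) (by omega)
  rw [h4]
  norm_num

theorem log_sub {p : ℕ} {K : Type} [NormedField K] {Log : K → K} (hL : IsLog p Log)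
    (hth1 : th p < 1) (Lsm : ∀ x : K, ‖x‖ < th p → ‖Log (1 + x)‖ = ‖x‖) {u F : K} {ρ : ℝ}
    (hu : ‖u‖ = 1) (hF : ‖F - u‖ ≤ ρ) (hρ : ρ < th p) : ‖Log F - Log u‖ ≤ ρ := by
  have hu0 : u ≠ 0 := by
    intro h
    rw [h, norm_zero] at hu
    exact zero_ne_one hu
  have hF0 : F ≠ 0 := by
    intro h
    rw [h, zero_sub, norm_neg, hu] at hF
    linarith
  have e : F = u * (1 + (F - u) / u) := by
    field_simp
    ring
  have h1 : (1 + (F - u) / u) ≠ 0 := by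
    intro h
    rw [h, mul_zero] at e
    exact hF0 e
  have h2 : ‖(F - u) / u‖ = ‖F - u‖ := by rw [norm_div, hu, div_one]
  have h3 : Log F = Log u + Log (1 + (F - u) / u) := by
    rw [← hL.mul _ _ hu0 h1, ← e]
  rw [h3, add_sub_cancel_left, Lsm _ (by rw [h2]; linarith), h2]
  exact hF

theorem lwr (urr : ZP3.URRStmt) (thb : ZP3.THBStmt) (lgb : LgbStmt) : LwrStmt := by
  intro p hp h11 K _ _ _ hExt Log hL s e e₂ A B t w y a₁ a₂ F₁ F₂ n₁ n₂ l₁ l₂ ρ he hee he₂ hl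
    ha₁ ha₂ hl₁ hl₂ hl12 hρ hρt hw hw1 hw2 hF₁ hF₂ hR₁ hR₂ hA hB hy
  have h5 : 5 ≤ p := by omega
  obtain ⟨-, hth0, hth1, -, -⟩ := thb p hp h5
  obtain ⟨⟨L1, Lpow⟩, Ldiv, -, Lsm, -, LU, -⟩ := lgb p hp h5 K hExt Log hL
  obtain ⟨U1, -, -, -, -⟩ := urr p hp K hExt
  have hρ1 : ρ < th p := by
    have : th p ^ 3 ≤ th p := by
      calc th p ^ 3 = th p * th p ^ 2 := by ring
        _ ≤ th p * 1 := by
          apply mul_le_mul_of_nonneg_left _ hth0.le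
          exact pow_le_one₀ hth0.le hth1.le
        _ = th p := mul_one _
    linarith
  have hp0 : (p : K) ≠ 0 := by
    exact_mod_cast hp.ne_zero
  have hρ0 : 0 ≤ ρ := by
    have : (0 : ℝ) ≤ (p : ℝ)⁻¹ := by positivity
    linarith
  have hw0 : 0 < ‖w‖ := lt_of_lt_of_le (by positivity) hw1
  have hwne : w ≠ 0 := norm_pos_iff.1 hw0
  have ht0 : t ≠ 0 := by
    intro h
    rw [h, zero_pow (by omega), zero_div] at hw
    exact hwne hw
  have hlw₁ : ‖l₁ * w‖ < 1 := by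
    rw [norm_mul]
    calc ‖l₁‖ * ‖w‖ ≤ 1 * ‖w‖ := mul_le_mul_of_nonneg_right hl₁.1 (norm_nonneg _)
      _ = ‖w‖ := one_mul _
      _ < 1 := hw2
  have hlw₂ : ‖l₂ * w‖ < 1 := by
    rw [norm_mul]
    calc ‖l₂‖ * ‖w‖ ≤ 1 * ‖w‖ := mul_le_mul_of_nonneg_right hl₂.1 (norm_nonneg _)
      _ = ‖w‖ := one_mul _
      _ < 1 := hw2
  have hv₁ : ‖1 + l₁ * w‖ = 1 := norm_one_add hlw₁
  have hv₂ : ‖1 + l₂ * w‖ = 1 := norm_one_add hlw₂
  have hv₁0 : 1 + l₁ * w ≠ 0 := by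
    intro h
    rw [h, norm_zero] at hv₁
    exact zero_ne_one hv₁
  have hv₂0 : 1 + l₂ * w ≠ 0 := by
    intro h
    rw [h, norm_zero] at hv₂
    exact zero_ne_one hv₂
  have hl0 : l₁ - l₂ ≠ 0 := by
    intro h
    rw [h, norm_zero] at hl12
    exact zero_ne_one hl12
  have hyw : ‖y‖ = ‖w‖ := by
    rw [hy, norm_div, norm_mul, hl12, hv₂, one_mul, div_one]
  have hD₁ : ‖Log F₁ - Log (1 + l₁ * w)‖ ≤ ρ := log_sub hL hth1 Lsm hv₁ hF₁ hρ1
  have hD₂ : ‖Log F₂ - Log (1 + l₂ * w)‖ ≤ ρ := log_sub hL hth1 Lsm hv₂ hF₂ hρ1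
  have hLa₁ : ‖Log a₁‖ ≤ ρ := (LU a₁ ha₁).trans hρ
  have hLa₂ : ‖Log a₂‖ ≤ ρ := (LU a₂ ha₂).trans hρ
  have hLl : ‖Log (l₁ - l₂)‖ ≤ ρ := (LU _ ⟨(U1 l₁ l₂ hl₁ hl₂).2.2.2, hl12⟩).trans hρ
  -- logarithms
  have hy1 : 1 + y = (1 + l₁ * w) / (1 + l₂ * w) := by
    rw [hy]
    field_simp
    ring
  have e1 : Log (1 + y) = Log (1 + l₁ * w) - Log (1 + l₂ * w) := by
    rw [hy1, Ldiv _ _ hv₁0 hv₂0]
  have e2 : Log w = (e : K) * Log t := by
    rw [hw, Ldiv _ _ (pow_ne_zero _ ht0) hp0, hL.pp, sub_zero]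
    have := Lpow t (e : ℤ) ht0
    rw [zpow_natCast, Int.cast_natCast] at this
    exact this
  have e3 : Log y = Log (l₁ - l₂) + Log w - Log (1 + l₂ * w) := by
    rw [hy, Ldiv _ _ (mul_ne_zero hl0 hwne) hv₂0, hL.mul _ _ hl0 hwne]
  have hB' : (B : K) = (e : K) * ((s : ℚ) : K) * (A : K) := by
    have := congrArg (fun x : ℚ => (x : K)) hB
    push_cast at this
    exact this
  have hne : ‖(e : K)‖ = 1 := norm_nat_eq hp hExt he (by omega)
  have hne₂ : ‖(e₂ : K)‖ = 1 := norm_nat_eq hp hExt (by omega) he₂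
  have he₂0 : (e₂ : K) ≠ 0 := by
    intro h
    rw [h, norm_zero] at hne₂
    exact zero_ne_one hne₂
  obtain ⟨c, hc⟩ : ∃ c : K, c = (e : K) / (e₂ : K) := ⟨_, rfl⟩
  have hc1 : ‖c‖ = 1 := by rw [hc, norm_div, hne, hne₂, div_one]
  have hce : c * (e₂ : K) = e := by
    rw [hc]
    field_simp
  have hc2 : (c - 1) * Log (1 + l₂ * w) = 0 := by
    rcases hl with h | h
    · have : c = 1 := by
        rw [hc, h]
        have : (e : K) ≠ 0 := by
          rw [← h]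
          exact he₂0
        exact div_self this
      rw [this, sub_self, zero_mul]
    · rw [h, zero_mul, add_zero, L1, mul_zero]
  -- the second relation times c
  have hR₂' : (e : K) * Log t = c * (Log a₂ + Log F₂) - (e : K) * ((s : ℚ) : K) * Log n₂ := by
    linear_combination c * hR₂ - (Log t + ((s : ℚ) : K) * Log n₂) * hce
  have max_le : ∀ x y : K, ‖x‖ ≤ ρ → ‖y‖ ≤ ρ → ‖x + y‖ ≤ ρ := fun x y hx hy =>
    (IsUltrametricDist.norm_add_le_max x y).trans (max_le hx hy)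
  have hE : ‖c * (Log a₂ + (Log F₂ - Log (1 + l₂ * w)))‖ ≤ ρ := by
    rw [norm_mul, hc1, one_mul]
    exact max_le _ _ hLa₂ hD₂
  refine ⟨hyw, ?_, ?_⟩
  · have e4 : (A : K) * Log (1 + y) - B * (Log n₁ - Log n₂) =
        (-(Log F₁ - Log (1 + l₁ * w)) + (-Log a₁ +
          c * (Log a₂ + (Log F₂ - Log (1 + l₂ * w))))) * (A : K) := by
      rw [e1, hB']
      linear_combination (-(A : K)) * hR₁ + (A : K) * hR₂' + (A : K) * hc2
    rw [e4, norm_mul]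
    refine mul_le_mul_of_nonneg_right (max_le _ _ ?_ (max_le _ _ ?_ hE)) (norm_nonneg _)
    · rw [norm_neg]
      exact hD₁
    · rw [norm_neg]
      exact hLa₁
  · have e4 : (A : K) * Log y + B * Log n₂ =
        (Log (l₁ - l₂) + c * (Log a₂ + (Log F₂ - Log (1 + l₂ * w)))) * (A : K) := by
      rw [e3, e2, hB']
      linear_combination (A : K) * hR₂' + (A : K) * hc2
    rw [e4, norm_mul]
    exact mul_le_mul_of_nonneg_right (max_le _ _ hLl hE) (norm_nonneg _)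

end

end Pool.Agent.ZPK.H59
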