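import Pool.Agent.ZPK.StmtsT

/-!
Squad ZPK (MP_6e1a06_nt), row PBL: a pair of large coordinates away from the critical radius.
-/

set_option autoImplicit false

namespace Pool.Agent.ZPK.H59

open Pool.Agent.ZPT Pool.Agent.ZP3

noncomputable section

theorem norm_root {K : Type} [NormedField K] {z : K} (h : Ro z) : ‖z‖ = 1 := by
  obtain ⟨M, hM, hz⟩ := h
  have h1 : ‖z‖ ^ M = 1 := by rw [← norm_pow, hz, norm_one]
  exact (pow_eq_one_iff_of_nonneg (norm_nonneg _) (by omega)).1 h1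

theorem norm_lL {K : Type} [NormedField K] {L : Subfield K} {e e' : ℕ} {A : ℕ → K} {g : K}
    (h : Cd L e' A g) (he : 1 ≤ e') : ‖lL e e' A g‖ ≤ 1 := by
  unfold lL
  split_ifs
  · rw [norm_div, h.g1, h.A0 he, div_one]
  · rw [norm_zero]
    exact zero_le_one

theorem pbl (thb : ZP3.THBStmt) (num : NumStmt) (tpl : TplStmt) (fin : FinStmt) : PblStmt := by
  intro U hU p E hp hE hpE K _ _ _ _ _ hExt L hL e₁ e₂ A₁ A₂ g₁ g₂ h₁ h₂ he₁ he hEe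
  have hp5 : 5 ≤ p := by
    have : 1 ≤ (E + 1) ^ 2 := Nat.one_le_pow _ _ (by omega)
    omega
  obtain ⟨-, hth0, hth1, -, -⟩ := thb p hp hp5
  obtain ⟨h, hh, H⟩ := tpl U hU p E hp hE hpE K hExt L hL e₁ e₂ A₁ A₂ g₁ g₂ h₁ h₂ he₁ he hEe
  obtain ⟨M, hM, HM⟩ := fin p hp (by omega) K hExt {h} (th p) hth1
  obtain ⟨-, -, hrh, hnum⟩ := num p E hp hE hpE
  refine ⟨E * M, ?_⟩
  intro t q₁ q₂ ht hLa hz hq₁ hq₂ hdep
  obtain ⟨ζ, hζ, hn, hM2⟩ := H t q₁ q₂ ht hLa hq₁ hq₂ hdep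
  have hp1 : (1 : ℝ) < p := by exact_mod_cast hp.one_lt
  have ht1 : ‖t‖ < 1 := by
    by_contra hc
    have h1 : (1 : ℝ) ≤ ‖t‖ ^ e₁ := one_le_pow₀ (not_lt.1 hc)
    have h2 : (p : ℝ)⁻¹ < 1 := inv_lt_one_of_one_lt₀ hp1
    have h3 : ‖t‖ ^ e₁ < (p : ℝ)⁻¹ := hLa
    linarith
  have htr : ‖t‖ ≤ th p := by
    have h1 := (hnum ‖t‖ e₁ ht ht1 he₁ (by omega)).1 hLa
    have h2 : th p ^ 20 ≤ th p := by
      calc th p ^ 20 = th p * th p ^ 19 := by ring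
        _ ≤ th p * 1 := mul_le_mul_of_nonneg_left (pow_le_one₀ hth0.le hth1.le) hth0.le
        _ = th p := mul_one _
    linarith
  have max_le : ∀ x y : K, ‖x‖ ≤ th p → ‖y‖ ≤ th p → ‖x + y‖ ≤ th p := fun x y hx hy =>
    (IsUltrametricDist.norm_add_le_max x y).trans (max_le hx hy)
  have hζ1 : ‖ζ‖ = 1 := norm_root hζ
  have hd : ‖ζ - h‖ ≤ th p := by
    have e : ζ - h = -(h * (1 + lL e₁ e₁ A₁ g₁ * (t ^ e₁ / p)) -
        ζ * (1 + lL e₁ e₂ A₂ g₂ * (t ^ e₁ / p))) + (h * (lL e₁ e₁ A₁ g₁ * (t ^ e₁ / p)) +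
        -(ζ * (lL e₁ e₂ A₂ g₂ * (t ^ e₁ / p)))) := by ring
    rw [e]
    refine max_le _ _ ?_ (max_le _ _ ?_ ?_)
    · rw [norm_neg]
      exact hn.trans htr
    · rw [norm_mul, norm_mul, hh.2, one_mul]
      calc ‖lL e₁ e₁ A₁ g₁‖ * ‖t ^ e₁ / (p : K)‖ ≤ 1 * ‖t ^ e₁ / (p : K)‖ :=
            mul_le_mul_of_nonneg_right (norm_lL h₁ he₁) (norm_nonneg _)
        _ = ‖t ^ e₁ / (p : K)‖ := one_mul _
        _ ≤ th p := hz.le
    · rw [norm_neg, norm_mul, norm_mul, hζ1, one_mul]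
      calc ‖lL e₁ e₂ A₂ g₂‖ * ‖t ^ e₁ / (p : K)‖ ≤ 1 * ‖t ^ e₁ / (p : K)‖ :=
            mul_le_mul_of_nonneg_right (norm_lL h₂ (by omega)) (norm_nonneg _)
        _ = ‖t ^ e₁ / (p : K)‖ := one_mul _
        _ ≤ th p := hz.le
  have hζM : ζ ^ M = 1 := HM ζ hζ ⟨h, Finset.mem_singleton_self h, hd⟩
  refine ⟨e₂ * M, e₁ * M, ?_, ?_, ?_, ?_, hM2 M hM hζM⟩
  · exact Nat.mul_pos (by omega) (by omega)
  · exact Nat.mul_le_mul_right _ hEe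
  · exact Nat.mul_pos (by omega) (by omega)
  · exact Nat.mul_le_mul_right _ (by omega)

end

end Pool.Agent.ZPK.H59
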